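import Pool.Agent.PathMix.No

set_option autoImplicit false

open PathMix

namespace Pool.Agent.Results.MP_261efc_co.NoRankOne

/-- If `n + 1` is a multiple of `6` other than `6`, or a multiple of `15`, or a multiple of `21`,
then for every probability density `f` the averaged mixing matrix of the path `P_n` has rank at
least `2`. -/
theorem result (n : ℕ) (h : (6 ∣ n + 1 ∧ n + 1 ≠ 6) ∨ 15 ∣ n + 1 ∨ 21 ∣ n + 1)
    (f : ℝ → ℝ) (hf : IsDensity f) : 2 ≤ (Mavg n f).rank := by
  have hn : 1 ≤ n := by
    rcases h with ⟨h, _⟩ | h | h <;> have := Nat.le_of_dvd (by omega) h <;> omega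
  have hne : (Mavg n f).rank ≠ 1 := by
    intro hr
    have hc := (criterion n hn f hf).mp hr
    rcases h with ⟨h, h6⟩ | h | h
    · refine no6 n h ?_ (mom f) hc
      obtain ⟨k, hk⟩ := h
      omega
    · exact no15 n h (mom f) hc
    · exact no21 n h (mom f) hc
  have hpos : (Mavg n f).rank ≠ 0 := by
    intro h0
    have hfin : Module.finrank ℝ (LinearMap.range (Mavg n f).mulVecLin) = 0 := h0
    rw [Submodule.finrank_eq_zero, LinearMap.range_eq_bot] at hfin
    have hrow : ∑ b, Mavg n f ⟨0, by omega⟩ b = 1 := by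
      rw [← MM_row n (mom f) (mom_zero f hf) ⟨0, by omega⟩]
      apply Finset.sum_congr rfl
      intro b _
      exact Mavg_eq n f hf.1 _ _
    have hones : (Mavg n f).mulVecLin (fun _ => (1 : ℝ)) ⟨0, by omega⟩ = 1 := by
      simp only [Matrix.mulVecLin_apply, Matrix.mulVec, dotProduct, mul_one]
      exact hrow
    rw [hfin] at hones
    simp at hones
  omega

end Pool.Agent.Results.MP_261efc_co.NoRankOne
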