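import Pool.Agent.PathMix.Indep

set_option autoImplicit false

open PathMix

namespace Pool.Agent.Results.MP_261efc_co.RankOne

/-- If `n ≥ 5` and `n + 1` is a prime, twice a prime, or a power of two, then some probability
density `f` makes the averaged mixing matrix of the path `P_n` a matrix of rank one. -/
theorem result (n : ℕ) (hn : 5 ≤ n)
    (h : (n + 1).Prime ∨ (∃ p : ℕ, p.Prime ∧ n + 1 = 2 * p) ∨ (∃ k : ℕ, n + 1 = 2 ^ k)) :
    ∃ f : ℝ → ℝ, IsDensity f ∧ (Mavg n f).rank = 1 := by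
  have hind : ∀ a : Fin (n / 2) → ℤ, ∑ r, (a r : ℝ) * th n ((r : ℕ) + 1) = 0 → a = 0 := by
    intro a ha
    rcases h with h | ⟨p, hp, hN⟩ | ⟨k, hk⟩
    · exact ind_prime n (by omega) h a ha
    · exact ind_two_prime n p hp (by omega) hN a ha
    · exact ind_two_pow n k (by omega) hk a ha
  obtain ⟨f, hf, hm⟩ := yes_of_ind n (by omega) hind
  exact ⟨f, hf, (criterion n (by omega) f hf).mpr hm⟩

end Pool.Agent.Results.MP_261efc_co.RankOne
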